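import Pool.Agent.Q46.IP.ToolsS
import Pool.Agent.Q46.SL.Sub

/-!
# Almost primes `n ^ 2 + x` in the middle of long gaps: small subgroups

The problem asks for primes `n ^ 2 + x` with small `x`. For every `n` (`η = n ^ 2 ≤ p ^ K`, `K` arbitrary) we find many `x < p`
such that `n ^ 2 + x` is an almost prime in the MIDDLE of a long gap: all other integers within `κ rankin(p)` of it are
divisible by a prime `≤ log p`; and this with both `x` an element and a logarithm of a small multiplicative subgroup.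

Let `p` be a large prime and let `g` have multiplicative order `T` modulo `p`. In every box `[A1, A1 + N1) × [A2, A2 + N2)` with
`N1 N2 ≥ p ^ (9 / 8 + ε) T ^ (2 / 3)` (this allows subgroups of order `T` slightly larger than `p ^ (3 / 8)`) there are many points of
`y ≡ c g ^ x (mod p)` BOTH of whose coordinates have the property.

Here the property is, with `y = η + x`: `y` has at most `R` prime factors, all larger than `M ^ κ`, while EVERY other integer
within distance `κ rankin(M)` of `y` has a prime factor `≤ log M`; `η` is an arbitrary integer, `|η| ≤ M ^ K`, and `rankin(M) =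
log M log₂ M log₄ M / (log₃ M) ^ 2`. (`M = p`)

Design and proof: helper46 (modules `Pool.Agent.Q46.IP.*`, `Pool.Agent.Q46.SL.*`): the Rankin covering argument with holes at the
pattern gives a modulus and a residue class in which everything else near the pattern is covered by the small primes; the sieve is
applied to the vectors of residues in this class, which are equidistributed with a power saving by bounds for exponential sums.
-/

set_option autoImplicit false

namespace Pool.Agent.Results.MP_73869e_nt.IsolatedSmallSubgroups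

open Finset Polynomial Filter
open Pool.Agent.Q46.SL hiding Almost
open Pool.Agent.Q46.IP (LoneS csS evI sysT adm_pair adm_one lone_tupleS lone_pairS lone_oneS)

/-- `n` is not zero and has at most `R` prime factors (counted with multiplicity), all larger than `z` -/
def Almost (z : ℝ) (R : ℕ) (n : ℤ) : Prop :=
  n ≠ 0 ∧ n.natAbs.primeFactorsList.length ≤ R ∧ ∀ q : ℕ, q.Prime → (q : ℤ) ∣ n → z < q

/-- Rankin's function `log M log₂ M log₄ M / (log₃ M) ^ 2` (iterated logarithms) -/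
noncomputable def rankin (M : ℝ) : ℝ :=
  Real.log M * Real.log (Real.log M) * Real.log (Real.log (Real.log (Real.log M))) /
    (Real.log (Real.log (Real.log M))) ^ 2

/-- `y` has at most `R` prime factors, all larger than `M ^ κ`, and every other integer `y + i` with
`|i| ≤ κ rankin(M)` has a prime factor `≤ log M` -/
def Isolated (κ M : ℝ) (R : ℕ) (y : ℤ) : Prop :=
  Almost (M ^ κ) R y ∧
    ∀ i : ℤ, |(i : ℝ)| ≤ κ * rankin M → i ≠ 0 → ∃ q : ℕ, q.Prime ∧ (q : ℝ) ≤ Real.log M ∧ (q : ℤ) ∣ y + i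

/-- In every short interval there are almost primes `η + x` in the middle of long gaps, for both coordinates `x` of many points of `y = c g ^ x`, `g` of small order. -/
theorem result (K : ℕ) (ε : ℝ) (hε : 0 < ε) (hε1 : ε ≤ 1) :
    ∃ κ : ℝ, 0 < κ ∧ ∃ R p₀ : ℕ, ∀ p : ℕ, p₀ ≤ p → p.Prime → ∀ η : ℤ, |(η : ℝ)| ≤ (p : ℝ) ^ K → ∀ g c : ℤ, ¬ (p : ℤ) ∣ g → ¬ (p : ℤ) ∣ c →
      ∀ A1 N1 A2 N2 : ℕ, A1 + N1 ≤ orderOf (g : ZMod p) → A2 + N2 ≤ p →
      (p : ℝ) ^ (9 / 8 + ε) * (orderOf (g : ZMod p) : ℝ) ^ (2 / 3 : ℝ) ≤ (N1 : ℝ) * N2 →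
      ∃ G : Finset (ℕ × ℕ), ((N1 : ℝ) * N2 / p) * (p : ℝ) ^ (-ε) ≤ G.card ∧
        ∀ z ∈ G, (A1 ≤ z.1 ∧ z.1 < A1 + N1) ∧ (A2 ≤ z.2 ∧ z.2 < A2 + N2) ∧ (p : ℤ) ∣ z.2 - c * g ^ z.1 ∧
          Isolated κ p R (η + z.1) ∧ Isolated κ p R (η + z.2) := by
  obtain ⟨κ, hκ, cc, hcc, p₀, h⟩ := Pool.Agent.Q46.SL.small_subgroups (LoneS 1 K : PE 1 0 1 × ℤ → ℝ → ℝ → ℤ → Prop)
    (fun k' M => M ^ (-(ε / (2 * (((2 : ℕ) : ℝ) + 1)) * k'))) (fun k' _ => csS 1 1 1 K (ε / (2 * (((2 : ℕ) : ℝ) + 1))) (by positivity) k') ε hε hε1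
  obtain ⟨p₁, hp₁8, hp₁, hp₂⟩ := evI hcc hε hκ 2
  refine ⟨κ, hκ, ⌊((((K + 2) * (1 + 1) : ℕ)) : ℝ) / κ⌋₊, max p₁ p₀, ?_⟩
  intro p hp hpp η hη g c hg hc A1 N1 A2 N2 hA1 hA2 hN
  have hpr : (p₁ : ℝ) ≤ p := by exact_mod_cast (le_max_left _ _).trans hp
  have hord := ord_le hpp g hg
  obtain ⟨G, hG, hG2⟩ := h p ((le_max_right _ _).trans hp) (sysT ![0] adm_one, η) hpp g c hg hc A1 N1 A2 N2 hA1 hA2 hN
  refine ⟨G, le_trans (hp₁ _ hpr _ (by positivity)) hG, ?_⟩
  intro z hz
  obtain ⟨a1, a2, a3, a4, a5⟩ := hG2 z hz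
  exact ⟨a1, a2, a3, lone_oneS hp₁8 hpr hη a4 (by exact_mod_cast (by omega : z.1 ≤ p)), lone_oneS hp₁8 hpr hη a5 (by exact_mod_cast (by omega : z.2 ≤ p))⟩

end Pool.Agent.Results.MP_73869e_nt.IsolatedSmallSubgroups
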