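import Pool.Agent.Y862.SQ.Main1

set_option autoImplicit false

/-!
# Almost primes just above squares: the Poisson law in short windows

Call `m` good if it has at most `2 r` prime factors, all of them larger than `X ^ (1 / r)`. For `n ≤ 2 X` let
`N(n)` be the number of the good `m` in `(n ^ 2, n ^ 2 + T]`. Let `V` be the product of `1 - 1 / p` over the
primes `p ≤ X ^ (1 / r)`. For windows with a bounded expected number `T V ≤ x₀` of good integers (`V` has the
order of magnitude `r / log X`, so that these are the windows of length `O(log n)` above the squares) the number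
`N(n)` follows the Poisson law with mean `T V`, in total variation, with an error which is arbitrarily
small when `r` is large; this holds in EVERY interval `(Z, Z + Y]` of starting points `n` with `Y ≥ X ^ θ`,
`θ > 0` arbitrary.

The binomial moments of all orders are averages of the singular series of the polynomials
`(n ^ 2 + h₁) ⋯ (n ^ 2 + h_k)`; they come from the project `SQ` of the starting tree (modules
`Y486.SQ.Law`, `Y810.SQ.Law2`, `Y862.SQ.Main1`), which had been used for the law of large numbers only.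
-/

namespace Pool.Agent.Results.MP_73869e_nt.PoissonLaw

open Finset

/-- `m` has at most `2 r` prime factors (with multiplicity), all larger than `X ^ (1 / r)` -/
def Good (r X m : ℕ) : Prop :=
  m.primeFactorsList.length ≤ 2 * r ∧ ∀ p : ℕ, p.Prime → p ∣ m → (X : ℝ) ^ (1 / (r : ℝ)) < (p : ℝ)

open Classical in
/-- the number of the good integers `m` with `n ^ 2 < m ≤ n ^ 2 + T` -/
noncomputable def N (r X n T : ℕ) : ℕ := ((Ioc (n ^ 2) (n ^ 2 + T)).filter (fun m => Good r X m)).card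

/-- the product of `1 - 1 / p` over the primes `p ≤ X ^ (1 / r)` -/
noncomputable def V (r X : ℕ) : ℝ :=
  ∏ p ∈ (Icc 1 ⌊(X : ℝ) ^ (1 / (r : ℝ))⌋₊).filter Nat.Prime, (1 - 1 / (p : ℝ))

open Classical in
/-- the probability of the set `A` for the Poisson law with mean `x` -/
noncomputable def poisson (x : ℝ) (A : Set ℕ) : ℝ :=
  ∑' j : ℕ, if j ∈ A then Real.exp (-x) * x ^ j / (j.factorial : ℝ) else 0

lemma length_le (z : ℝ) (hz : 0 < z) (L : List ℕ) (hL : ∀ p ∈ L, z ≤ (p : ℝ)) :
    z ^ L.length ≤ (L.prod : ℝ) := by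
  induction L with
  | nil => simp
  | cons a l ih =>
    rw [List.length_cons, List.prod_cons, pow_succ, Nat.cast_mul]
    have h1 := ih (fun p hp => hL p (List.mem_cons_of_mem _ hp))
    have h2 := hL a List.mem_cons_self
    have h3 : 0 < z ^ l.length := by positivity
    calc z ^ l.length * z ≤ (l.prod : ℝ) * a := by
          apply mul_le_mul h1 h2 hz.le (h3.le.trans h1)
      _ = _ := by ring

/-- good integers are the sifted ones -/
lemma good_iff (r X m : ℕ) (hr : 1 ≤ r) (hX : 1 ≤ X) (h5 : 5 < (X : ℝ) ^ (1 / (r : ℝ))) (hm : 1 ≤ m)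
    (hmX : m ≤ 5 * X ^ 2) :
    Good r X m ↔ ∀ p ∈ Pool.Agent.Y862.SQ.pr ⌊(X : ℝ) ^ (1 / (r : ℝ))⌋₊, ¬ p ∣ m := by
  have hz0 : 0 ≤ (X : ℝ) ^ (1 / (r : ℝ)) := by positivity
  constructor
  · rintro ⟨-, h2⟩ p hp hd
    rw [Pool.Agent.Y862.SQ.pr, mem_filter, mem_Icc] at hp
    have h3 := h2 p hp.2 hd
    have h4 : (p : ℝ) ≤ (X : ℝ) ^ (1 / (r : ℝ)) :=
      (Nat.le_floor_iff hz0).1 hp.1.2
    linarith
  · intro h
    have hbig : ∀ p : ℕ, p.Prime → p ∣ m → (X : ℝ) ^ (1 / (r : ℝ)) < (p : ℝ) := by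
      intro p hp hd
      by_contra hcon
      push Not at hcon
      refine h p ?_ hd
      rw [Pool.Agent.Y862.SQ.pr, mem_filter, mem_Icc]
      exact ⟨⟨hp.one_lt.le, Nat.le_floor hcon⟩, hp⟩
    refine ⟨?_, hbig⟩
    by_contra hcon
    push Not at hcon
    obtain ⟨z, hz⟩ : ∃ z : ℝ, z = (X : ℝ) ^ (1 / (r : ℝ)) := ⟨_, rfl⟩
    rw [← hz] at h5 hbig
    have h1 := length_le z (by linarith) m.primeFactorsList (fun p hp =>
      (hbig p (Nat.prime_of_mem_primeFactorsList hp) (Nat.dvd_of_mem_primeFactorsList hp)).le)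
    rw [Nat.prod_primeFactorsList (by omega)] at h1
    have h2 : z ^ (2 * r + 1) ≤ (m : ℝ) := (pow_le_pow_right₀ (by linarith) (by omega)).trans h1
    have h3 : z ^ r = X := by
      rw [hz, ← Real.rpow_natCast, ← Real.rpow_mul (Nat.cast_nonneg X), one_div,
        inv_mul_cancel₀ (by positivity), Real.rpow_one]
    have h4 : z ^ (2 * r + 1) = (X : ℝ) ^ 2 * z := by
      rw [pow_succ, mul_comm 2 r, pow_mul, h3]
    rw [h4] at h2
    have h6 : (m : ℝ) ≤ 5 * (X : ℝ) ^ 2 := by exact_mod_cast hmX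
    have h7 : (1 : ℝ) ≤ (X : ℝ) ^ 2 := by
      have : (1 : ℝ) ≤ X := by exact_mod_cast hX
      nlinarith
    nlinarith

/-- the numbers of the good integers are the numbers of the sifted shifts -/
lemma N_eq (r X n t : ℕ) (hr : 1 ≤ r) (hX : 1 ≤ X) (h5 : 5 < (X : ℝ) ^ (1 / (r : ℝ)))
    (hn : n ^ 2 + t ≤ 5 * X ^ 2) :
    N r X n t = Pool.Agent.Y862.SQ.Ns ⌊(X : ℝ) ^ (1 / (r : ℝ))⌋₊ t n := by
  classical
  unfold N Pool.Agent.Y862.SQ.Ns
  symm
  apply Finset.card_bij (fun h _ => n ^ 2 + h)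
  · intro h hh
    rw [mem_filter, mem_Icc] at hh
    rw [mem_filter, mem_Ioc]
    refine ⟨by omega, ?_⟩
    rw [good_iff r X (n ^ 2 + h) hr hX h5 (by omega) (by omega)]
    exact hh.2
  · intro a _ b _ hab
    omega
  · intro m hm
    rw [mem_filter, mem_Ioc] at hm
    refine ⟨m - n ^ 2, ?_, by omega⟩
    rw [mem_filter, mem_Icc]
    refine ⟨by omega, ?_⟩
    have h1 := (good_iff r X m hr hX h5 (by omega) (by omega)).1 hm.2
    have h2 : n ^ 2 + (m - n ^ 2) = m := by omega
    rw [h2]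
    exact h1

lemma summable_poisson (x : ℝ) :
    Summable (fun j : ℕ => Real.exp (-x) * x ^ j / (j.factorial : ℝ)) := by
  have h := (Real.summable_pow_div_factorial x).mul_left (Real.exp (-x))
  refine h.congr (fun j => ?_)
  ring

open Classical in
lemma tendsto_poisson (x : ℝ) (A : Set ℕ) :
    Filter.Tendsto (fun M : ℕ => ∑ j ∈ (range M).filter (fun j => j ∈ A),
      Real.exp (-x) * x ^ j / (j.factorial : ℝ)) Filter.atTop (nhds (poisson x A)) := by
  have hs : Summable (fun j : ℕ => if j ∈ A then Real.exp (-x) * x ^ j / (j.factorial : ℝ) else 0) := by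
    have := (summable_poisson x).indicator A
    refine this.congr (fun j => ?_)
    simp only [Set.indicator_apply]
  have h := hs.hasSum.tendsto_sum_nat
  unfold poisson
  refine h.congr (fun M => ?_)
  rw [Finset.sum_filter]

open Classical in
/-- **The Poisson law for almost primes just above squares.** For all `θ, ε > 0` and `x₀` there is `r₀` such
that for every `r ≥ r₀` and all large `X`: in every interval `(Z, Z + Y]` with `Y ≥ X ^ θ`, `Z + Y ≤ 2 X`, for
every length `T` with `T V ≤ x₀` and every set `A` of natural numbers the proportion of the integers `n` in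
`(Z, Z + Y]` for which the number of the good integers in `(n ^ 2, n ^ 2 + T]` belongs to `A` differs by at
most `ε` from the probability of `A` for the Poisson law with mean `T V`. -/
theorem result (θ x₀ ε : ℝ) (hθ : 0 < θ) (hε : 0 < ε) :
    ∃ r₀ : ℕ, ∀ r : ℕ, r₀ ≤ r → ∃ X₀ : ℕ, ∀ X : ℕ, X₀ ≤ X → ∀ Z Y : ℕ,
      (X : ℝ) ^ θ ≤ Y → Z + Y ≤ 2 * X → ∀ T : ℕ, T * V r X ≤ x₀ → ∀ A : Set ℕ,
        |(((Ioc Z (Z + Y)).filter (fun n => N r X n T ∈ A)).card : ℝ) / Y - poisson (T * V r X) A| ≤ ε := by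
  obtain ⟨r0, hr0⟩ := Pool.Agent.Y810.SQ.t_LAW2 (Pool.Agent.Y486.SQ.t_LAW Pool.Agent.Y862.SQ.t_AVG) θ hθ x₀ ε hε
  obtain ⟨c, C, hc, hC, hV⟩ := Pool.Agent.Y810.SQ.V1_bounds
  refine ⟨max r0 1, fun r hr => ?_⟩
  have hr1 : 1 ≤ r := (le_max_right _ _).trans hr
  have hrpos : (0 : ℝ) < r := by exact_mod_cast hr1
  obtain ⟨X0, hX0⟩ := hr0 r ((le_max_left _ _).trans hr)
  have hpow : Filter.Tendsto (fun X : ℕ => (X : ℝ) ^ (1 / (r : ℝ))) Filter.atTop Filter.atTop :=
    (tendsto_rpow_atTop (by positivity)).comp tendsto_natCast_atTop_atTop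
  -- `T ≤ x₀ / V ≤ x₀ log X / c ≤ X`
  have hlogX : ∀ᶠ X : ℕ in Filter.atTop, |x₀| / c * Real.log X ≤ (X : ℝ) := by
    have h := (Real.isLittleO_log_id_atTop.bound
      (show (0 : ℝ) < 1 / (|x₀| / c + 1) by positivity)).natCast_atTop
    filter_upwards [h, Filter.eventually_ge_atTop 1] with X hX hX1
    have hX1' : (1 : ℝ) ≤ X := by exact_mod_cast hX1
    have hl0 : 0 ≤ Real.log X := Real.log_nonneg hX1'
    simp only [id, Real.norm_eq_abs] at hX
    rw [abs_of_nonneg hl0, abs_of_nonneg (by linarith : (0 : ℝ) ≤ X)] at hX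
    have hp : 0 < |x₀| / c + 1 := by positivity
    rw [one_div, inv_mul_eq_div, le_div_iff₀ hp] at hX
    nlinarith
  obtain ⟨X1, hX1⟩ := Filter.eventually_atTop.1 ((hpow.eventually_gt_atTop 6).and
    (hlogX.and (Filter.eventually_ge_atTop 4)))
  refine ⟨max X0 X1, fun X hX Z Y hXY hZY T hT A => ?_⟩
  obtain ⟨h6, hlX, h4⟩ := hX1 X ((le_max_right _ _).trans hX)
  have hX1' : (1 : ℝ) ≤ X := by exact_mod_cast (by omega : 1 ≤ X)
  obtain ⟨y, hy⟩ : ∃ y : ℕ, y = ⌊(X : ℝ) ^ (1 / (r : ℝ))⌋₊ := ⟨_, rfl⟩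
  have hyz : (y : ℝ) ≤ (X : ℝ) ^ (1 / (r : ℝ)) := by
    rw [hy]; exact Nat.floor_le (by positivity)
  have hzy : (X : ℝ) ^ (1 / (r : ℝ)) < y + 1 := by
    rw [hy]; exact Nat.lt_floor_add_one _
  have hy2 : 5 < (y : ℝ) := by linarith
  have hy2' : 2 ≤ y := by
    have : 5 < y := by exact_mod_cast hy2
    omega
  have hVeq : V r X = Pool.Agent.Y862.SQ.V1 y := by rw [hy]; rfl
  have hVb := hV y hy2'
  have hlogy : 0 < Real.log y := Real.log_pos (by linarith)
  have hlogyX : Real.log y ≤ Real.log X := by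
    apply Real.log_le_log (by linarith)
    refine hyz.trans ?_
    calc (X : ℝ) ^ (1 / (r : ℝ)) ≤ (X : ℝ) ^ (1 : ℝ) := by
          apply Real.rpow_le_rpow_of_exponent_le hX1'
          rw [div_le_one hrpos]
          exact_mod_cast hr1
      _ = X := Real.rpow_one _
  have hTX : (T : ℝ) ≤ X := by
    have h1 : (T : ℝ) * (c / Real.log y) ≤ |x₀| := by
      calc (T : ℝ) * (c / Real.log y) ≤ T * V r X := by
            rw [hVeq]
            exact mul_le_mul_of_nonneg_left hVb.1 (Nat.cast_nonneg T)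
        _ ≤ x₀ := hT
        _ ≤ |x₀| := le_abs_self _
    have h2 : (T : ℝ) ≤ |x₀| / c * Real.log y := by
      have e : (T : ℝ) * (c / Real.log y) = T * c / Real.log y := by ring
      rw [e, div_le_iff₀ hlogy] at h1
      rw [div_mul_eq_mul_div, le_div_iff₀ hc]
      exact h1
    refine h2.trans ((mul_le_mul_of_nonneg_left hlogyX (by positivity)).trans hlX)
  have hTX' : T ≤ X := by exact_mod_cast hTX
  have hYpos : (0 : ℝ) < Y := lt_of_lt_of_le (by positivity) hXY
  have hmain := hX0 X ((le_max_left _ _).trans hX) Z Y hXY T (by rw [← hy, ← hVeq]; exact hT)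
  rw [← hy, ← hVeq] at hmain
  -- the counts
  have hcnt : ∀ n ∈ Ioc Z (Z + Y), N r X n T = Pool.Agent.Y862.SQ.Ns y T n := by
    intro n hn
    have hnX : n ≤ 2 * X := by
      have := (mem_Ioc.1 hn).2
      omega
    have hnt : n ^ 2 + T ≤ 5 * X ^ 2 := by
      have h7 : n ^ 2 ≤ (2 * X) ^ 2 := Nat.pow_le_pow_left hnX 2
      nlinarith
    rw [hy]
    exact N_eq r X n T hr1 (by omega) (by linarith) hnt
  have hNT : ∀ n, N r X n T ≤ T := by
    intro n
    unfold N
    refine (card_filter_le _ _).trans ?_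
    rw [Nat.card_Ioc]
    omega
  -- finite sets
  have hfin : ∀ M : ℕ, T + 1 ≤ M →
      |(((Ioc Z (Z + Y)).filter (fun n => N r X n T ∈ A)).card : ℝ) / Y -
        ∑ j ∈ (range M).filter (fun j => j ∈ A),
          Real.exp (-(T * V r X)) * (T * V r X) ^ j / (j.factorial : ℝ)| ≤ ε := by
    intro M hM
    have h1 := hmain ((range M).filter (fun j => j ∈ A))
    have e : (Ioc Z (Z + Y)).filter (fun n => Pool.Agent.Y862.SQ.Ns y T n ∈ (range M).filter (fun j => j ∈ A)) =
        (Ioc Z (Z + Y)).filter (fun n => N r X n T ∈ A) := by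
      apply Finset.filter_congr
      intro n hn
      rw [mem_filter, mem_range, ← hcnt n hn]
      have := hNT n
      constructor
      · exact fun h => h.2
      · exact fun h => ⟨by omega, h⟩
    rw [e] at h1
    have e2 : (((Ioc Z (Z + Y)).filter (fun n => N r X n T ∈ A)).card : ℝ) / Y -
        ∑ j ∈ (range M).filter (fun j => j ∈ A),
          Real.exp (-(T * V r X)) * (T * V r X) ^ j / (j.factorial : ℝ) =
        ((((Ioc Z (Z + Y)).filter (fun n => N r X n T ∈ A)).card : ℝ) -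
          Y * ∑ j ∈ (range M).filter (fun j => j ∈ A),
          Real.exp (-(T * V r X)) * (T * V r X) ^ j / (j.factorial : ℝ)) / Y := by
      field_simp
    rw [e2, abs_div, abs_of_pos hYpos, div_le_iff₀ hYpos]
    exact h1
  have hlim := ((tendsto_const_nhds (x := (((Ioc Z (Z + Y)).filter (fun n => N r X n T ∈ A)).card : ℝ) / Y)
    (f := Filter.atTop)).sub (tendsto_poisson (T * V r X) A)).abs
  exact le_of_tendsto hlim (Filter.eventually_atTop.2 ⟨T + 1, fun M hM => hfin M hM⟩)

end Pool.Agent.Results.MP_73869e_nt.PoissonLaw
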