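import Pool.Agent.Q315.RD2

/-!
# `m` almost primes at prescribed positions of the intervals `(n ^ 2, n ^ 2 + (log_2 n) ^ 2]`, for `n` with restricted
digits

Fix `m ≥ 1`. Let `g ≥ 2` be a base and `K` a large number of digits, let `A 0, ..., A (K - 1)` be arbitrary sets of
digits of which we only assume that they are not too small on average (`Rich`: the number `|A 0| ⋯ |A (K - 1)|` of the
`t < g ^ K` with the digits `A i` is at least `exp (- c K) g ^ K`). Let `n₀ ≤ g ^ (E K)` be arbitrary; the interval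
`[n₀, n₀ + g ^ K)` of numbers `n` may be as short as an arbitrarily small power of `n`. Let `h 0, ..., h (m - 1)` be
arbitrary positions in the interval of the question, `1 ≤ h i ≤ (log_2 n₀) ^ 2` (they may depend on `n₀`), such that
no prime divides the product of the `n ^ 2 + h i` for all integers `n`.

* The number of the `n = n₀ + t` with these `t` for which all the `m` numbers `n ^ 2 + h i`, elements of
  `(n ^ 2, n ^ 2 + (log_2 n) ^ 2]`, have at most `r` prime factors, all larger than `g ^ (K / r)`, is at least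
  `κ V |A 0| ⋯ |A (K - 1)|`, unless there is an obvious obstruction (no last digit `d` in `A 0` for which the `m` numbers
  for `n = n₀ + d` are prime to `g`).
* The number of these `n` for which all the `m` numbers are primes is at most `C V |A 0| ⋯ |A (K - 1)|`.

Here `V` is the expected density, the product of `1 - ν (p) / p` over the primes `p ≤ g ^ K`, where `ν (p)` is the number
of the classes `n` modulo `p` for which `p` divides one of the `m` numbers. All constants are independent of `n₀`, of the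
positions `h i` and of the sets `A i`.

The law of large numbers and the Poisson law for the number of almost primes in such intervals (for all `n` of a short
interval; `LawOfLargeNumbers` and `PoissonLaw` of this problem) say nothing about prescribed positions and nothing about
sparse sets of `n`. The theorem on almost prime values of polynomials at integers with restricted digits, uniform in the
polynomial, is from the starting library (`Pool.Agent.Y816.PD.uni_fun`), in the form of `Pool.Agent.Q315.RD.forms`.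
-/

set_option autoImplicit false

namespace Pool.Agent.Results.MP_73869e_nt.PrescribedPositions

open Filter Finset Polynomial
open Pool.Agent.Q315.RD

/-- The interval `(n ^ 2, n ^ 2 + (log_2 n) ^ 2]` of the question. -/
def window (n : ℕ) : Set ℕ := {q | n ^ 2 < q ∧ (q : ℝ) ≤ (n : ℝ) ^ 2 + Real.logb 2 n ^ 2}

/-- The product of `1 - ν / p` over the primes `p ≤ y`, where `ν` is the number of the residue classes `n` modulo `p`
such that `p` divides one of the numbers `n ^ 2 + h i`. -/
noncomputable def V {m : ℕ} (h : Fin m → ℕ) (y : ℕ) : ℝ :=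
  ∏ p ∈ (Icc 1 y).filter Nat.Prime, (1 - (classes p fun n => ∃ i, p ∣ n ^ 2 + h i) / (p : ℝ))

/-- the forms -/
def F {m : ℕ} (n₀ : ℕ) (h : Fin m → ℕ) : Fin m → ℕ → ℕ := fun i t => (n₀ + t) ^ 2 + h i

lemma dvd_sq_add (p n h : ℕ) : p ∣ (n + p) ^ 2 + h ↔ p ∣ n ^ 2 + h := by
  have : (n + p) ^ 2 + h = n ^ 2 + h + p * (2 * n + p) := by ring
  rw [this]
  exact (Nat.dvd_add_left (Dvd.intro _ rfl))

lemma density_F {m : ℕ} (n₀ y : ℕ) (h : Fin m → ℕ) : density (F n₀ h) y = V h y := by
  classical
  unfold density V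
  apply prod_congr rfl
  intro p hp
  congr 3
  rw [← classes_shift p n₀ (fun n => ∃ i, p ∣ n ^ 2 + h i)]
  · rfl
  · intro n
    simp only [dvd_sq_add]

lemma ev_log (E g : ℕ) (hg : 2 ≤ g) : ∀ᶠ K : ℕ in atTop, ((E * K : ℕ) * Real.logb 2 g) ^ 2 ≤ (g : ℝ) ^ K := by
  have hg1 : (1 : ℝ) < g := by exact_mod_cast hg
  have h := tendsto_pow_const_div_const_pow_of_one_lt 2 hg1
  have h2 := h.const_mul (((E : ℝ) * Real.logb 2 g) ^ 2)
  rw [mul_zero] at h2
  filter_upwards [h2.eventually_le_const (show (0 : ℝ) < 1 by norm_num)] with K hK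
  have h3 : 0 < (g : ℝ) ^ K := by positivity
  rw [← mul_div_assoc, div_le_one h3] at hK
  push_cast
  calc ((E : ℝ) * K * Real.logb 2 g) ^ 2 = ((E : ℝ) * Real.logb 2 g) ^ 2 * (K : ℝ) ^ 2 := by ring
    _ ≤ _ := hK

/-- **`m` almost primes at prescribed positions of the intervals `(n ^ 2, n ^ 2 + (log_2 n) ^ 2]`, for `n` with restricted
digits in short intervals.** -/
theorem result (m E : ℕ) (hm : 1 ≤ m) :
    ∃ c : ℝ, 0 < c ∧ ∃ r₀ : ℕ, 2 ≤ r₀ ∧ ∀ r : ℕ, r₀ ≤ r → ∀ g : ℕ, 2 ≤ g → ∃ κ C : ℝ, 0 < κ ∧ 0 < C ∧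
      ∀ᶠ K : ℕ in atTop, ∀ n₀ : ℕ, n₀ ≤ g ^ (E * K) → ∀ h : Fin m → ℕ,
        (∀ i, 1 ≤ h i ∧ (h i : ℝ) ≤ Real.logb 2 n₀ ^ 2) → (∀ p : ℕ, p.Prime → ∃ n : ℕ, ∀ i, ¬ p ∣ n ^ 2 + h i) →
        ∀ A : ℕ → Finset ℕ, Rich c g K A →
        ((∃ d ∈ A 0, ∀ i, ((n₀ + d) ^ 2 + h i).Coprime g) →
          κ * V h (g ^ K) * choices K A ≤
            count g K A fun t => ∀ i, (n₀ + t) ^ 2 + h i ∈ window (n₀ + t) ∧
              AlmostPrime (g ^ K) r ((n₀ + t) ^ 2 + h i)) ∧
        (count g K A (fun t => ∀ i, ((n₀ + t) ^ 2 + h i).Prime) : ℝ) ≤ C * V h (g ^ K) * choices K A := by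
  obtain ⟨c, hc, r₀, hr₀, h0⟩ := forms (2 * m) (m * (2 * E + 4)) (by omega)
  refine ⟨c, hc, r₀, hr₀, fun r hr g hg => ?_⟩
  obtain ⟨κ, C, hκ, hC, h1⟩ := h0 r hr g hg
  refine ⟨κ, C, hκ, hC, ?_⟩
  have hT : Tendsto (fun K : ℕ => g ^ K) atTop atTop := tendsto_pow_atTop_atTop_of_one_lt (show 1 < g by omega)
  filter_upwards [h1, hT.eventually_ge_atTop 5, ev_log E g hg] with K hK h5 hlog
  intro n₀ hn₀ h hh hadm A hA
  have hg0 : (0 : ℝ) < g := by
    have : (2 : ℝ) ≤ g := by exact_mod_cast hg
    linarith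
  have hn1 : 1 ≤ n₀ := by
    by_contra h2
    have h3 : n₀ = 0 := by omega
    obtain ⟨h4, h5⟩ := hh ⟨0, hm⟩
    rw [h3] at h5
    simp at h5
    omega
  have hlogn : 0 ≤ Real.logb 2 n₀ := Real.logb_nonneg (by norm_num) (by exact_mod_cast hn1)
  have hh2 : ∀ i, h i ≤ g ^ K := by
    intro i
    have h3 : Real.logb 2 n₀ ≤ (E * K : ℕ) * Real.logb 2 g := by
      rw [← Real.logb_pow]
      refine (Real.logb_le_logb (by norm_num) (by exact_mod_cast hn1) (by positivity)).2 ?_
      exact_mod_cast hn₀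
    have h4 : (h i : ℝ) ≤ ((g ^ K : ℕ) : ℝ) := by
      push_cast
      refine (hh i).2.trans (le_trans ?_ hlog)
      exact pow_le_pow_left₀ hlogn h3 2
    exact_mod_cast h4
  obtain ⟨hlow, hup⟩ := hK m (F n₀ h)
    ⟨∏ i : Fin m, ((X + Polynomial.C (n₀ : ℤ)) ^ 2 + Polynomial.C (h i : ℤ)), by
      refine (natDegree_prod_le _ _).trans ?_
      calc ∑ i : Fin m, ((X + Polynomial.C (n₀ : ℤ)) ^ 2 + Polynomial.C (h i : ℤ)).natDegree ≤ ∑ i : Fin m, 2 := by
            refine sum_le_sum fun i _ => ?_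
            compute_degree
        _ = 2 * m := by simp [mul_comm], fun t => by
      rw [eval_prod]
      refine prod_congr rfl fun i _ => ?_
      simp only [eval_add, eval_pow, eval_X, eval_C, F]
      push_cast
      ring⟩
    (fun p hp => by
      obtain ⟨n, hn⟩ := hadm p hp
      have hp1 := hp.one_lt
      refine ⟨n + (p - 1) * n₀, fun i hi => hn i ?_⟩
      unfold F at hi
      have h3 : n₀ + (n + (p - 1) * n₀) = n + p * n₀ := by
        obtain ⟨q, hq⟩ : ∃ q, p = q + 1 := ⟨p - 1, by omega⟩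
        subst hq
        simp only [Nat.add_sub_cancel]
        ring
      rw [h3] at hi
      have h4 : (n + p * n₀) ^ 2 + h i = n ^ 2 + h i + p * (2 * n * n₀ + p * n₀ ^ 2) := by ring
      rw [h4] at hi
      exact (Nat.dvd_add_left (Dvd.intro _ rfl)).1 hi)
    (fun t _ i => by
      unfold F
      nlinarith)
    (fun t ht => by
      have h3 : ∀ i, F n₀ h i t ≤ g ^ ((2 * E + 4) * K) := by
        intro i
        unfold F
        have h4 : n₀ + t ≤ 2 * g ^ ((E + 1) * K) := by
          have h6 : g ^ (E * K) ≤ g ^ ((E + 1) * K) := Nat.pow_le_pow_right (by omega) (by nlinarith)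
          have h7 : g ^ K ≤ g ^ ((E + 1) * K) := Nat.pow_le_pow_right (by omega) (by nlinarith)
          omega
        have h6 : h i ≤ (g ^ ((E + 1) * K)) ^ 2 := by
          refine (hh2 i).trans ?_
          rw [← pow_mul]
          exact Nat.pow_le_pow_right (by omega) (by nlinarith)
        calc (n₀ + t) ^ 2 + h i ≤ (2 * g ^ ((E + 1) * K)) ^ 2 + (g ^ ((E + 1) * K)) ^ 2 :=
              Nat.add_le_add (Nat.pow_le_pow_left h4 2) h6
          _ = (g ^ ((E + 1) * K)) ^ 2 * 5 := by ring
          _ ≤ (g ^ ((E + 1) * K)) ^ 2 * (g ^ K * g ^ K) := by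
            refine Nat.mul_le_mul_left _ ?_
            nlinarith
          _ = g ^ ((2 * E + 4) * K) := by
            rw [← pow_mul, ← pow_add, ← pow_add]
            congr 1
            ring
      calc ∏ i, F n₀ h i t ≤ ∏ _i : Fin m, g ^ ((2 * E + 4) * K) := prod_le_prod' fun i _ => h3 i
        _ = g ^ (m * (2 * E + 4) * K) := by
          rw [prod_const, card_univ, Fintype.card_fin, ← pow_mul]
          congr 1
          ring) A hA
  rw [density_F] at hlow hup
  constructor
  · rintro ⟨d, hd, hd1⟩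
    refine (hlow ⟨d, hd, fun i => hd1 i⟩).trans (Nat.cast_le.2 (count_mono ?_))
    intro t ht ha i
    refine ⟨⟨by have := (hh i).1; omega, ?_⟩, ha i⟩
    push_cast
    have h3 : Real.logb 2 n₀ ≤ Real.logb 2 ((n₀ + t : ℕ) : ℝ) := by
      refine (Real.logb_le_logb (by norm_num) (by exact_mod_cast hn1) (by positivity)).2 ?_
      push_cast
      have : (0 : ℝ) ≤ t := Nat.cast_nonneg t
      linarith
    have h4 := pow_le_pow_left₀ hlogn h3 2
    push_cast at h4
    linarith [(hh i).2]
  · exact hup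

end Pool.Agent.Results.MP_73869e_nt.PrescribedPositions
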